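import Mathlib
import Pool.Agent.H21.FM.CTab
import Pool.Agent.H21.FM.Strand

set_option autoImplicit false
open Finset Filter Topology

/-! # From the table configuration by configuration to the table of the primitives -/

namespace Pool.Agent.H21.FM

open Pool.Agent.H75.Perc hiding WL CT hh ph
open Pool.Agent.H75.TwoArm Pool.Agent.H75.Four Pool.Agent.H69.Q1 Pool.Agent.Q1
open Pool.Agent.H5.Q1 (oc vx_oc ty_oc fi_oc oc_congr)
open Pool.Agent.Q1.M4 (Cell Good IsSide nextSide tail head PType Adj4 Conn4)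
open Pool.Agent.H33.Q1

/-- expectation over the uniform random subset of `E` -/
noncomputable def Exx (E : Finset (ℤ × ℤ)) (f : Finset (ℤ × ℤ) → ℂ) : ℂ :=
  (1 / 2 : ℂ) ^ E.card * ∑ ω ∈ E.powerset, f ω

lemma Exx_congr {E : Finset (ℤ × ℤ)} {f g : Finset (ℤ × ℤ) → ℂ} (h : ∀ ω ⊆ E, f ω = g ω) :
    Exx E f = Exx E g := by
  unfold Exx
  rw [Finset.sum_congr rfl fun ω hω => h ω (mem_powerset.1 hω)]

lemma Exx_add (E : Finset (ℤ × ℤ)) (f g : Finset (ℤ × ℤ) → ℂ) :
    Exx E (fun ω => f ω + g ω) = Exx E f + Exx E g := by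
  unfold Exx
  rw [Finset.sum_add_distrib, mul_add]

lemma Exx_sub (E : Finset (ℤ × ℤ)) (f g : Finset (ℤ × ℤ) → ℂ) :
    Exx E (fun ω => f ω - g ω) = Exx E f - Exx E g := by
  unfold Exx
  rw [Finset.sum_sub_distrib, mul_sub]

lemma Exx_mul (E : Finset (ℤ × ℤ)) (a : ℂ) (f : Finset (ℤ × ℤ) → ℂ) :
    Exx E (fun ω => a * f ω) = a * Exx E f := by
  unfold Exx
  rw [← Finset.mul_sum]; ring

open scoped Classical in
/-- indicator -/
noncomputable def ind (A : Finset (ℤ × ℤ) → Prop) (ω : Finset (ℤ × ℤ)) : ℂ := if A ω then 1 else 0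

lemma Exx_ind (E : Finset (ℤ × ℤ)) (A : Finset (ℤ × ℤ) → Prop) :
    Exx E (ind A) = (Pr E A : ℝ) := by
  classical
  unfold Exx ind
  rw [Pr_eq, Finset.sum_boole]
  push_cast
  rw [one_div, inv_pow]
  have : (2 : ℂ) ^ E.card ≠ 0 := pow_ne_zero _ (by norm_num)
  field_simp

lemma inc_eq_Exx (X : Env) (c : ℤ × ℤ) : X.inc c = Exx X.E (fun ω => X.incO ω c) := rfl

/-! ### The corners and the points of the tile grid -/

lemma tv_wv' (h : ℕ) (s : Cell × ℤ) (j : ℕ) : tv (wv h s j) = wp (2 * h) s (2 * j) := by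
  rw [tv_wv]; rfl

lemma vx_exi (h : ℕ) (s : Cell × ℤ) (j : ℕ) : vx (exi h s j) = wv h s j := by
  unfold exi; rw [vx_oc]

lemma vx_ent (h : ℕ) (s : Cell × ℤ) (j : ℕ) : vx (ent h s j) = wv h s j := by
  unfold ent; rw [vx_oc]

lemma tf_exi (h : ℕ) (s : Cell × ℤ) (j : ℕ) : tf (fi (exi h s j)) = wp (2 * h) s (2 * j - 1) := by
  unfold exi
  rw [tf_fi_oc, tv_wv']
  unfold wp
  have : dir (s.2 + 2) = -dir s.2 := by
    rcases dir_cases s.2 with ⟨a, e⟩ | ⟨a, e⟩ | ⟨a, e⟩ | ⟨a, e⟩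
    · rw [e, dir2 (by omega : (s.2 + 2) % 4 = 2)]; rfl
    · rw [e, dir3 (by omega : (s.2 + 2) % 4 = 3)]; rfl
    · rw [e, dir0 (by omega : (s.2 + 2) % 4 = 0)]; rfl
    · rw [e, dir1 (by omega : (s.2 + 2) % 4 = 1)]; rfl
  rw [this]
  refine Prod.ext ?_ ?_ <;> simp only [Prod.fst_add, Prod.snd_add, Prod.fst_neg, Prod.snd_neg] <;> ring

lemma tf_ent (h : ℕ) (s : Cell × ℤ) (j : ℕ) : tf (fi (ent h s j)) = wp (2 * h) s (2 * j + 1) := by
  unfold ent
  rw [tf_fi_oc, tv_wv']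
  unfold wp
  have : dir (s.2 + 2 + 2) = dir s.2 := dir_congr (by omega)
  rw [this]
  refine Prod.ext ?_ ?_ <;> simp only [Prod.fst_add, Prod.snd_add] <;> ring

section incr

variable {S : Shape} {h : ℕ} {X : Env} {H : ℤ × ℤ → ℂ}

lemma gp_exi (hh : 1 ≤ h) (hE : X.E = EE S h) (g : GPrim X H) (i : ℕ) {j : ℕ} (hj1 : 1 ≤ j)
    (hj : j ≤ h) : H (wp (2 * h) (S.P.side i) (2 * j)) - H (wp (2 * h) (S.P.side i) (2 * j - 1)) =
      X.inc (exi h (S.P.side i) j) := by
  have := g (exi h (S.P.side i) j) (Or.inr (by rw [hE]; exact plab_exi (by omega) i hj1 hj))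
  rw [vx_exi, tv_wv', tf_exi] at this
  exact this

lemma gp_ent (hh : 1 ≤ h) (hE : X.E = EE S h) (g : GPrim X H) (i : ℕ) {j : ℕ}
    (hj : j < h) : H (wp (2 * h) (S.P.side i) (2 * j)) - H (wp (2 * h) (S.P.side i) (2 * j + 1)) =
      X.inc (ent h (S.P.side i) j) := by
  have := g (ent h (S.P.side i) j) (Or.inl (by rw [hE]; exact lab_ent (by omega) i hj))
  rw [vx_ent, tv_wv', tf_ent] at this
  exact this

/-- increment of the primitive over a vertex of the wall -/
lemma incr_free (hh : 1 ≤ h) (hE : X.E = EE S h) (g : GPrim X H) (i : ℕ) {j : ℕ} (hj1 : 1 ≤ j)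
    (hj : j < h) : incr h (S.P.side i) H (2 * j - 1) (2 * j + 1) =
      X.inc (exi h (S.P.side i) j) - X.inc (ent h (S.P.side i) j) := by
  rw [← gp_exi hh hE g i hj1 hj.le, ← gp_ent hh hE g i hj]
  unfold incr; ring

/-- increment of the primitive over a face of the wall -/
lemma incr_wired (hh : 1 ≤ h) (hE : X.E = EE S h) (g : GPrim X H) (i : ℕ) {j : ℕ}
    (hj : j < h) : incr h (S.P.side i) H (2 * j) (2 * j + 2) =
      X.inc (exi h (S.P.side i) (j + 1)) - X.inc (ent h (S.P.side i) j) := by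
  have e1 := gp_exi hh hE g i (j := j + 1) (by omega) (by omega)
  have e2 := gp_ent hh hE g i hj
  rw [← e1, ← e2]
  unfold incr
  have a1 : (2 : ℤ) * ((j + 1 : ℕ) : ℤ) = 2 * j + 2 := by push_cast; ring
  have a2 : (2 : ℤ) * ((j + 1 : ℕ) : ℤ) - 1 = 2 * j + 1 := by push_cast; ring
  rw [a1, show (2 : ℤ) * (j : ℤ) + 2 - 1 = 2 * j + 1 by ring]
  ring

end incr

lemma ph_neg_two : 1 - ph (-2) = (1 - ph 2) * ph 1 := by
  have h1 : ph (-2) = ph 4 := by rw [← ph_add_six (-2)]; rfl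
  have h2 : ph 4 = -ph 1 := ph_add_three 1
  have h3 : ph 2 * ph 1 = ph 3 := by rw [← ph_add]; rfl
  have h4 := ph_three
  rw [h1, h2]
  linear_combination h3 + h4

theorem tab_of_ctab {S : Shape} {h : ℕ} {X12 X23 X34 : Env}
    {V1 V3 : Finset (ℤ × ℤ) → ℤ × ℤ → ℂ} {s1 s3 : Finset (ℤ × ℤ) → ℤ × ℤ → Prop}
    {H12 H23 H34 : ℤ × ℤ → ℂ} (hh : 1 ≤ h) (T : CTab S h X12 X23 X34 V1 V3 s1 s3)
    (g12 : GPrim X12 H12) (g23 : GPrim X23 H23) (g34 : GPrim X34 H34) :
    Tab S h H12 H23 H34 := by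
  classical
  have pos := Shape.pos S
  -- general form of the increments
  have key : ∀ (X : Env) (H : ℤ × ℤ → ℂ) (hE : X.E = EE S h) (g : GPrim X H)
      (a1 a3 : Finset (ℤ × ℤ) → ℂ)
      (hinc : ∀ ω ⊆ EE S h, ∀ z, (lab z ∈ EE S h ∨ plab z ∈ EE S h) →
        X.incO ω z = a1 ω * V1 ω z + a3 ω * V3 ω z),
      (∀ i < S.N, S.Fr i → ∀ j, 1 ≤ j → j < h →
        incr h (S.P.side i) H (2 * j - 1) (2 * j + 1) = (1 - ph 2) * Exx (EE S h) (fun ω =>
          a1 ω * V1 ω (exi h (S.P.side i) j) + a3 ω * V3 ω (exi h (S.P.side i) j))) ∧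
      (∀ i < S.N, S.Wd i → ∀ j, j < h →
        incr h (S.P.side i) H (2 * j) (2 * j + 2) = (1 - ph 2) * (ph 1 * Exx (EE S h) (fun ω =>
          a1 ω * V1 ω (exi h (S.P.side i) (j + 1)) + a3 ω * V3 ω (exi h (S.P.side i) (j + 1))))) := by
    intro X H hE g a1 a3 hinc
    constructor
    · intro i hi hF j hj1 hj
      rw [incr_free hh hE g i hj1 hj, inc_eq_Exx, inc_eq_Exx, hE, ← Exx_sub, ← Exx_mul]
      refine Exx_congr fun ω hω => ?_
      rw [hinc ω hω _ (Or.inr (plab_exi (by omega) i hj1 hj.le)),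
        hinc ω hω _ (Or.inl (lab_ent (by omega) i hj)), T.free1 ω hω i hi hF j hj1 hj,
        T.free3 ω hω i hi hF j hj1 hj]
      ring
    · intro i hi hW j hj
      rw [incr_wired hh hE g i hj, inc_eq_Exx, inc_eq_Exx, hE, ← Exx_sub, ← mul_assoc, ← ph_neg_two,
        ← Exx_mul]
      refine Exx_congr fun ω hω => ?_
      rw [hinc ω hω _ (Or.inr (plab_exi (by omega) i (by omega) (by omega))),
        hinc ω hω _ (Or.inl (lab_ent (by omega) i hj)), T.wired1 ω hω i hi hW j hj,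
        T.wired3 ω hω i hi hW j hj]
      ring
  have k23 := key X23 H23 T.e23 g23 (fun _ => 1) (ind (TT S h)) (by
    intro ω hω z hz
    rw [T.incO23 ω hω z hz]
    unfold ind; split_ifs <;> ring)
  have k34 := key X34 H34 T.e34 g34 (fun _ => 1) (fun ω => ph 2 * (1 - ind (TT S h) ω)) (by
    intro ω hω z hz
    rw [T.incO34 ω hω z hz]
    unfold ind; split_ifs <;> ring)
  have k12 := key X12 H12 T.e12 g12 (fun ω => 1 - ind (TT S h) ω) (fun _ => 1) (by
    intro ω hω z hz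
    rw [T.incO12 ω hω z hz]
    unfold ind; split_ifs <;> ring)
  have hV1 : ∀ i < S.N, ∀ j, 1 ≤ j → j ≤ h → ∀ ω ⊆ EE S h, V1 ω (exi h (S.P.side i) j) =
      ph (S.k i) * ind (fun ω => s1 ω (exi h (S.P.side i) j)) ω := by
    intro i hi j hj1 hj ω hω
    rw [T.exi1 ω hω i hi j hj1 hj]
    unfold ind; split_ifs <;> ring
  have hV3 : ∀ i < S.N, ∀ j, 1 ≤ j → j ≤ h → ∀ ω ⊆ EE S h, V3 ω (exi h (S.P.side i) j) =
      ph (S.k i + if i < S.m3 then 4 else 0) * ind (fun ω => s3 ω (exi h (S.P.side i) j)) ω := by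
    intro i hi j hj1 hj ω hω
    rw [T.exi3 ω hω i hi j hj1 hj]
    unfold ind; split_ifs <;> ring
  have p1 : ∀ k : ℤ, ph 1 * ph k = ph (k + 1) := fun k => by rw [ph_add]; ring
  have p5 : ∀ k : ℤ, ph 1 * ph (k + 4) = ph (k - 1) := fun k => by
    rw [← ph_add, ← ph_add_six (k - 1)]; congr 1; ring
  have p6 : ∀ k : ℤ, ph 2 * ph (k + 4) = ph k := fun k => by
    rw [← ph_add, ← ph_add_six k]; congr 1; ring
  have p7 : ∀ k : ℤ, ph 1 * (ph 2 * ph (k + 4)) = ph (k + 1) := fun k => by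
    rw [p6, p1]
  refine ⟨?_, ?_, ?_, ?_⟩
  · intro i hi j hj1 hj
    have hiN : i < S.N := by omega
    have hF : S.Fr i := Or.inl hi
    have h3 : (if i < S.m3 then (4 : ℤ) else 0) = 4 := if_pos (by omega)
    set v := wv h (S.P.side i) j with hv
    have w1 := hV1 i hiN j hj1 hj.le
    have w3 := hV3 i hiN j hj1 hj.le
    rw [h3] at w3
    refine ⟨?_, ?_, ?_⟩
    · rw [k23.1 i hiN hF j hj1 hj, Exx_congr (g := fun ω => ph (S.k i) *
        (ind (fun ω => C1 S h v ω ∧ TT S h ω) ω + ind (fun ω => C1 S h v ω ∧ ¬ TT S h ω) ω))]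
      · rw [Exx_mul, Exx_add, Exx_ind, Exx_ind]
        unfold mA mC
        push_cast; ring
      · intro ω hω
        rw [w1 ω hω, w3 ω hω]
        have t1 := T.vanI ω hω i hi j hj1 hj.le
        have t2 := T.eqA ω hω i hi j hj1 hj
        rw [← hv] at t2
        unfold ind
        by_cases ht : TT S h ω <;> by_cases ha : C1 S h v ω <;>
          by_cases hb : s3 ω (exi h (S.P.side i) j) <;> simp [ht, ha, hb, t2] <;> tauto
    · rw [k34.1 i hiN hF j hj1 hj, Exx_congr (g := fun ω => ph (S.k i) *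
        (ind (fun ω => C1 S h v ω ∧ TT S h ω) ω + ind (fun ω => C1 S h v ω ∧ ¬ TT S h ω) ω +
          ind (fun ω => C3 S h v ω ∧ ¬ TT S h ω) ω))]
      · rw [Exx_mul, Exx_add, Exx_add, Exx_ind, Exx_ind, Exx_ind]
        unfold mA mC mD
        push_cast; ring
      · intro ω hω
        rw [w1 ω hω, w3 ω hω]
        have t1 := T.vanI ω hω i hi j hj1 hj.le
        have t2 := T.eqA ω hω i hi j hj1 hj
        have t3 := T.eqD ω hω i hi j hj1 hj
        rw [← hv] at t2 t3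
        have t4 := p6 (S.k i)
        unfold ind
        by_cases ht : TT S h ω
        · by_cases ha : C1 S h v ω <;> simp [ht, ha, t2]
        · have t5 := t3 ht
          by_cases ha : C1 S h v ω <;> by_cases hb : C3 S h v ω <;> simp [ht, ha, hb, t2, t5, t4]
          ring
    · rw [k12.1 i hiN hF j hj1 hj, Exx_congr (g := fun ω => ph (S.k i) *
        (ind (fun ω => C1 S h v ω ∧ ¬ TT S h ω) ω +
          ph 4 * ind (fun ω => C3 S h v ω ∧ ¬ TT S h ω) ω))]
      · rw [Exx_mul, Exx_add, Exx_mul, Exx_ind, Exx_ind]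
        unfold mC mD
        push_cast; ring
      · intro ω hω
        rw [w1 ω hω, w3 ω hω]
        have t1 := T.vanI ω hω i hi j hj1 hj.le
        have t2 := T.eqA ω hω i hi j hj1 hj
        have t3 := T.eqD ω hω i hi j hj1 hj
        rw [← hv] at t2 t3
        have t4 := ph_add (S.k i) 4
        unfold ind
        by_cases ht : TT S h ω
        · by_cases hb : s3 ω (exi h (S.P.side i) j)
          · exact absurd ht (t1 hb)
          · simp [ht, hb]
        · have t5 := t3 ht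
          by_cases ha : C1 S h v ω <;> by_cases hb : C3 S h v ω <;> simp [ht, ha, hb, t2, t5, t4]
          ring
  · intro i hi1 hi j hj
    have hiN : i < S.N := by omega
    have hW : S.Wd i := Or.inl ⟨hi1, hi⟩
    have h3 : (if i < S.m3 then (4 : ℤ) else 0) = 4 := if_pos hi
    have w1 := hV1 i hiN (j + 1) (by omega) (by omega)
    have w3 := hV3 i hiN (j + 1) (by omega) (by omega)
    rw [h3] at w3
    set A : Finset (ℤ × ℤ) → Prop := fun ω => s1 ω (exi h (S.P.side i) (j + 1)) with hA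
    set B : Finset (ℤ × ℤ) → Prop := fun ω => s3 ω (exi h (S.P.side i) (j + 1)) with hB
    have t1 : ∀ ω ⊆ EE S h, A ω → TT S h ω := fun ω hω => T.vanII ω hω i hi1 hi (j + 1) (by omega) (by omega)
    refine ⟨Pr (EE S h) A, Pr (EE S h) (fun ω => B ω ∧ TT S h ω),
      Pr (EE S h) (fun ω => B ω ∧ ¬ TT S h ω), Pr_nonneg _ _, Pr_nonneg _ _, Pr_nonneg _ _, ?_, ?_, ?_⟩
    · rw [k23.2 i hiN hW j hj, ← Exx_mul, Exx_congr (g := fun ω => ph (S.k i + 1) * ind A ω +
        ph (S.k i - 1) * ind (fun ω => B ω ∧ TT S h ω) ω)]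
      · rw [Exx_add, Exx_mul, Exx_mul, Exx_ind, Exx_ind]
      · intro ω hω
        rw [w1 ω hω, w3 ω hω]
        have t2 := t1 ω hω
        have t3 := p1 (S.k i)
        have t4 := p5 (S.k i)
        unfold ind
        by_cases ht : TT S h ω <;> by_cases ha : A ω <;> by_cases hb : B ω <;>
          simp [ht, ha, hb, t3, t4, mul_add]
    · rw [k34.2 i hiN hW j hj, ← Exx_mul, Exx_congr (g := fun ω => ph (S.k i + 1) * (ind A ω +
        ind (fun ω => B ω ∧ ¬ TT S h ω) ω))]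
      · rw [Exx_mul, Exx_add, Exx_ind, Exx_ind]
      · intro ω hω
        rw [w1 ω hω, w3 ω hω]
        have t2 := t1 ω hω
        have t3 := p1 (S.k i)
        have t4 := p7 (S.k i)
        unfold ind
        by_cases ht : TT S h ω <;> by_cases ha : A ω <;> by_cases hb : B ω <;>
          simp [ht, ha, hb, t3, t4, mul_add]
    · rw [k12.2 i hiN hW j hj, ← Exx_mul, Exx_congr (g := fun ω => ph (S.k i - 1) *
        (ind (fun ω => B ω ∧ TT S h ω) ω + ind (fun ω => B ω ∧ ¬ TT S h ω) ω))]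
      · rw [Exx_mul, Exx_add, Exx_ind, Exx_ind]
      · intro ω hω
        rw [w1 ω hω, w3 ω hω]
        have t2 := t1 ω hω
        have t4 := p5 (S.k i)
        unfold ind
        by_cases ht : TT S h ω <;> by_cases ha : A ω <;> by_cases hb : B ω <;>
          simp [ht, ha, hb, t4, mul_add] <;> tauto
  · intro i hi1 hi j hj1 hj
    have hiN : i < S.N := by omega
    have hF : S.Fr i := Or.inr ⟨hi1, hi⟩
    have h3 : (if i < S.m3 then (4 : ℤ) else 0) = 0 := if_neg (by omega)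
    have w1 := hV1 i hiN j hj1 hj.le
    have w3 := hV3 i hiN j hj1 hj.le
    rw [h3, add_zero] at w3
    set A : Finset (ℤ × ℤ) → Prop := fun ω => s1 ω (exi h (S.P.side i) j) with hA
    set B : Finset (ℤ × ℤ) → Prop := fun ω => s3 ω (exi h (S.P.side i) j) with hB
    have t1 : ∀ ω ⊆ EE S h, A ω → ¬ TT S h ω := fun ω hω => T.vanIII ω hω i hi1 hi j hj1 hj.le
    refine ⟨Pr (EE S h) (fun ω => B ω ∧ TT S h ω), Pr (EE S h) A,
      Pr (EE S h) (fun ω => B ω ∧ ¬ TT S h ω), Pr_nonneg _ _, Pr_nonneg _ _, Pr_nonneg _ _, ?_, ?_, ?_⟩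
    · rw [k23.1 i hiN hF j hj1 hj, Exx_congr (g := fun ω => ph (S.k i) *
        (ind (fun ω => B ω ∧ TT S h ω) ω + ind A ω))]
      · rw [Exx_mul, Exx_add, Exx_ind, Exx_ind]
      · intro ω hω
        rw [w1 ω hω, w3 ω hω]
        have t2 := t1 ω hω
        unfold ind
        by_cases ht : TT S h ω <;> by_cases ha : A ω <;> by_cases hb : B ω <;>
          simp [ht, ha, hb] <;> ring
    · rw [k34.1 i hiN hF j hj1 hj, Exx_congr (g := fun ω => ph (S.k i) *
        (ind A ω + ph 2 * ind (fun ω => B ω ∧ ¬ TT S h ω) ω))]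
      · rw [Exx_mul, Exx_add, Exx_mul, Exx_ind, Exx_ind]
      · intro ω hω
        rw [w1 ω hω, w3 ω hω]
        have t2 := t1 ω hω
        unfold ind
        by_cases ht : TT S h ω <;> by_cases ha : A ω <;> by_cases hb : B ω <;>
          simp [ht, ha, hb] <;> ring
    · rw [k12.1 i hiN hF j hj1 hj, Exx_congr (g := fun ω => ph (S.k i) *
        (ind (fun ω => B ω ∧ TT S h ω) ω + ind A ω + ind (fun ω => B ω ∧ ¬ TT S h ω) ω))]
      · rw [Exx_mul, Exx_add, Exx_add, Exx_ind, Exx_ind, Exx_ind]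
      · intro ω hω
        rw [w1 ω hω, w3 ω hω]
        have t2 := t1 ω hω
        unfold ind
        by_cases ht : TT S h ω <;> by_cases ha : A ω <;> by_cases hb : B ω <;>
          simp [ht, ha, hb] <;> first | tauto | ring
  · intro i hi1 hi j hj
    have hiN : i < S.N := hi
    have hW : S.Wd i := Or.inr ⟨hi1, hi⟩
    have h3 : (if i < S.m3 then (4 : ℤ) else 0) = 0 := if_neg (by omega)
    have w1 := hV1 i hiN (j + 1) (by omega) (by omega)
    have w3 := hV3 i hiN (j + 1) (by omega) (by omega)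
    rw [h3, add_zero] at w3
    set A : Finset (ℤ × ℤ) → Prop := fun ω => s1 ω (exi h (S.P.side i) (j + 1)) with hA
    set B : Finset (ℤ × ℤ) → Prop := fun ω => s3 ω (exi h (S.P.side i) (j + 1)) with hB
    have t1 : ∀ ω ⊆ EE S h, B ω → TT S h ω := fun ω hω => T.vanIV ω hω i hi1 hi (j + 1) (by omega) (by omega)
    refine ⟨Pr (EE S h) (fun ω => A ω ∧ TT S h ω), Pr (EE S h) B,
      Pr (EE S h) (fun ω => A ω ∧ ¬ TT S h ω), Pr_nonneg _ _, Pr_nonneg _ _, Pr_nonneg _ _, ?_, ?_, ?_⟩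
    · rw [k23.2 i hiN hW j hj, ← Exx_mul, Exx_congr (g := fun ω => ph (S.k i + 1) *
        (ind (fun ω => A ω ∧ TT S h ω) ω + ind B ω + ind (fun ω => A ω ∧ ¬ TT S h ω) ω))]
      · rw [Exx_mul, Exx_add, Exx_add, Exx_ind, Exx_ind, Exx_ind]
      · intro ω hω
        rw [w1 ω hω, w3 ω hω]
        have t2 := t1 ω hω
        have t3 := p1 (S.k i)
        unfold ind
        by_cases ht : TT S h ω <;> by_cases ha : A ω <;> by_cases hb : B ω <;>
          simp [ht, ha, hb, t3, mul_add] <;> first | tauto | ring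
    · rw [k34.2 i hiN hW j hj, ← Exx_mul, Exx_congr (g := fun ω => ph (S.k i + 1) *
        (ind (fun ω => A ω ∧ TT S h ω) ω + ind (fun ω => A ω ∧ ¬ TT S h ω) ω))]
      · rw [Exx_mul, Exx_add, Exx_ind, Exx_ind]
      · intro ω hω
        rw [w1 ω hω, w3 ω hω]
        have t2 := t1 ω hω
        have t3 := p1 (S.k i)
        unfold ind
        by_cases ht : TT S h ω <;> by_cases ha : A ω <;> by_cases hb : B ω <;>
          simp [ht, ha, hb, t3, mul_add] <;> first | tauto | ring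
    · rw [k12.2 i hiN hW j hj, ← Exx_mul, Exx_congr (g := fun ω => ph (S.k i + 1) *
        (ind B ω + ind (fun ω => A ω ∧ ¬ TT S h ω) ω))]
      · rw [Exx_mul, Exx_add, Exx_ind, Exx_ind]
      · intro ω hω
        rw [w1 ω hω, w3 ω hω]
        have t2 := t1 ω hω
        have t3 := p1 (S.k i)
        unfold ind
        by_cases ht : TT S h ω <;> by_cases ha : A ω <;> by_cases hb : B ω <;>
          simp [ht, ha, hb, t3, mul_add] <;> first | tauto | ring

end Pool.Agent.H21.FM
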